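import Pool.Agent.Helper40.WD.Stmts

set_option autoImplicit false

namespace Pool.Agent.Helper7.WD

open Filter Topology Pool.Agent.Helper40.WD

/-- the value at a point as a functional -/
noncomputable def tls_L {D : Dav} (R : Wd D →L[ℝ] Ed D) (p : Gi) : Wd D →ₗ[ℝ] ℝ where
  toFun w := val1 (R w : LC) p
  map_add' := by
    intro a b
    unfold val1
    rw [map_add, Submodule.coe_add, lp.coeFn_add, Pi.add_apply, ContinuousMap.add_apply]
    ring
  map_smul' := by
    intro c a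
    unfold val1
    rw [map_smul, Submodule.coe_smul, lp.coeFn_smul, Pi.smul_apply, ContinuousMap.smul_apply,
      smul_eq_mul, smul_eq_mul, RingHom.id_apply]
    ring

theorem tls_bd {D : Dav} (R : Wd D →L[ℝ] Ed D) (p : Gi) (w : Wd D) :
    |tls_L R p w| ≤ Real.exp (2 * kap * p.1) * (‖R‖ * ‖w‖) := by
  change |Real.exp (2 * kap * p.1) * ((R w : LC) p) one1| ≤ _
  rw [abs_mul, abs_of_pos (Real.exp_pos _)]
  refine mul_le_mul_of_nonneg_left ?_ (Real.exp_pos _).le
  have h1 : ‖((R w : LC) p) one1‖ ≤ ‖(R w : LC) p‖ := ContinuousMap.norm_coe_le_norm _ _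
  have h2 : ‖(R w : LC) p‖ ≤ ‖(R w : LC)‖ := lp.norm_apply_le_norm ENNReal.top_ne_zero _ _
  have h3 : ‖(R w : LC)‖ = ‖R w‖ := rfl
  have h4 := R.le_opNorm w
  rw [Real.norm_eq_abs] at h1
  linarith

/-- evaluation on the local subspace -/
noncomputable def tls_ev {D : Dav} (p : Gi) : Wd D →ₗ[ℝ] ℝ where
  toFun w := (w : LI) p
  map_add' := by
    intro a b
    rw [Submodule.coe_add, lp.coeFn_add, Pi.add_apply]
  map_smul' := by
    intro c a
    rw [Submodule.coe_smul, lp.coeFn_smul, Pi.smul_apply, RingHom.id_apply]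

theorem tls_mm (k : ℕ) : (mm k : ℝ) = Real.exp (Real.log 3 * k) := by
  induction k with
  | zero => simp [mm]
  | succ k ih =>
    have h : (mm (k + 1) : ℝ) = 3 * mm k := by
      rw [show mm (k + 1) = 3 * mm k from rfl]
      push_cast
      ring
    rw [h, ih]
    push_cast
    rw [mul_add, mul_one, Real.exp_add, Real.exp_log (by norm_num : (0 : ℝ) < 3)]
    ring

/-- the vectors of the docstring -/
noncomputable def tls_phi {D : Dav} (v : Evec D) (k : ℕ) (g : Fin (4 * mm k)) : Wd D :=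
  ∑ j, D.T k j g • v.e (k + 1) j - (3 : ℝ) • ∑ j, D.S k j g • v.e k j

theorem tls_phi_apply {D : Dav} (v : Evec D) (k : ℕ) (g : Fin (4 * mm k)) (p : Gi) :
    (tls_phi v k g : LI) p = ∑ j, D.T k j g * (v.e (k + 1) j : LI) p -
      3 * ∑ j, D.S k j g * (v.e k j : LI) p := by
  change tls_ev p (tls_phi v k g) = ∑ j, D.T k j g * tls_ev p (v.e (k + 1) j) -
      3 * ∑ j, D.S k j g * tls_ev p (v.e k j)
  unfold tls_phi
  simp only [map_sub, map_sum, map_smul, smul_eq_mul]

theorem tls_phi_norm {D : Dav} (v : Evec D) (k : ℕ) (g : Fin (4 * mm k)) :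
    ‖tls_phi v k g‖ ≤ 3000 * (mm k : ℝ) ^ (3 / 4 : ℝ) := by
  have h0 : 0 ≤ (mm k : ℝ) ^ (3 / 4 : ℝ) := Real.rpow_nonneg (Nat.cast_nonneg _) _
  change ‖(tls_phi v k g : LI)‖ ≤ _
  refine lp.norm_le_of_forall_le (by positivity) ?_
  rintro ⟨l, h⟩
  rw [Real.norm_eq_abs, tls_phi_apply]
  by_cases h1 : l = k
  · subst h1
    simp only [v.prev, v.same]
    have := D.ker l g h
    linarith
  · by_cases h2 : l = k + 1
    · subst h2
      have e1 : ∀ j, (v.e k j : LI) ⟨k + 1, h⟩ = 0 := fun j =>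
        v.zero k j (k + 1) h (by omega) (by omega)
      simp only [v.same, e1, mul_zero, Finset.sum_const_zero, sub_zero]
      have h3 := D.crs k g h
      have h4 : (mm (k + 1) : ℝ) = 3 * mm k := by
        rw [show mm (k + 1) = 3 * mm k from rfl]
        push_cast
        ring
      rw [h4, Real.mul_rpow (by norm_num) (Nat.cast_nonneg _)] at h3
      have h5 : (3 : ℝ) ^ (3 / 4 : ℝ) ≤ 3 := by
        calc (3 : ℝ) ^ (3 / 4 : ℝ) ≤ 3 ^ (1 : ℝ) :=
              Real.rpow_le_rpow_of_exponent_le (by norm_num) (by norm_num)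
          _ = 3 := Real.rpow_one 3
      nlinarith
    · by_cases h3 : l + 1 = k
      · subst h3
        have e1 : ∀ j, (v.e (l + 1 + 1) j : LI) ⟨l, h⟩ = 0 := fun j =>
          v.zero (l + 1 + 1) j l h (by omega) (by omega)
        simp only [v.prev, e1, mul_zero, Finset.sum_const_zero, zero_sub]
        have h4 := D.crs l h g
        have h5 : ∑ j, D.S (l + 1) j g * D.T l j h = ∑ j, D.T l j h * D.S (l + 1) j g :=
          Finset.sum_congr rfl fun j _ => mul_comm _ _
        rw [h5, abs_neg, abs_mul, abs_of_pos (by norm_num : (0 : ℝ) < 3)]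
        linarith
      · have e1 : ∀ j, (v.e (k + 1) j : LI) ⟨l, h⟩ = 0 := fun j =>
          v.zero (k + 1) j l h (by omega) (by omega)
        have e2 : ∀ j, (v.e k j : LI) ⟨l, h⟩ = 0 := fun j =>
          v.zero k j l h (by omega) (by omega)
        simp only [e1, e2, mul_zero, Finset.sum_const_zero, sub_zero, abs_zero]
        positivity

theorem tls_loc {D : Dav} (R : Wd D →L[ℝ] Ed D) (w : Wd D) (k : ℕ) (j : Fin (mm (k + 1))) :
    ∑ g, D.S (k + 1) j g * tls_L R ⟨k + 1, g⟩ w = 3 * ∑ g, D.T k j g * tls_L R ⟨k, g⟩ w := by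
  have h := (R w).2.2.1 k j one1
  have h1 : ((one1 : Set.Icc (0 : ℝ) 1) : ℝ) = 1 := rfl
  rw [h1] at h
  have e1 : ∑ g, D.S (k + 1) j g * tls_L R ⟨k + 1, g⟩ w =
      Real.exp (2 * kap * (k + 1 : ℕ)) * ∑ g, D.S (k + 1) j g * ((R w : LC) ⟨k + 1, g⟩) one1 := by
    rw [Finset.mul_sum]
    refine Finset.sum_congr rfl fun g _ => ?_
    change D.S (k + 1) j g * (Real.exp (2 * kap * (k + 1 : ℕ)) * _) = _
    ring
  have e2 : ∑ g, D.T k j g * tls_L R ⟨k, g⟩ w =
      Real.exp (2 * kap * k) * ∑ g, D.T k j g * ((R w : LC) ⟨k, g⟩) one1 := by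
    rw [Finset.mul_sum]
    refine Finset.sum_congr rfl fun g _ => ?_
    change D.T k j g * (Real.exp (2 * kap * k) * _) = _
    ring
  rw [e1, e2, ← h]
  have e3 : Real.exp (2 * kap * (k + 1 : ℕ)) * Real.exp (-(kap * (1 + 1))) =
      Real.exp (2 * kap * k) := by
    rw [← Real.exp_add]
    congr 1
    push_cast
    ring
  rw [← e3]
  ring

theorem st_TLS : ST_TLS := by
  intro D v R k
  obtain ⟨a, ha⟩ : ∃ a : ℝ, a = (mm k : ℝ) := ⟨_, rfl⟩
  have ha0 : 0 < a := by rw [ha, tls_mm]; exact Real.exp_pos _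
  have h4 : (mm (k + 1) : ℝ) = 3 * a := by
    rw [ha, show mm (k + 1) = 3 * mm k from rfl]
    push_cast
    ring
  have hb1 : bet D v (k + 1) R =
      1 / (12 * a ^ 2) * ∑ j, ∑ g, D.T k j g * tls_L R ⟨k, g⟩ (v.e (k + 1) j) := by
    unfold bet
    rw [h4, Finset.mul_sum, Finset.mul_sum]
    refine Finset.sum_congr rfl fun j _ => ?_
    have h := tls_loc R (v.e (k + 1) j) k j
    change 1 / (3 * a) * (1 / (4 * (3 * a)) *
      ∑ g, D.S (k + 1) j g * tls_L R ⟨k + 1, g⟩ (v.e (k + 1) j)) = _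
    rw [h]
    field_simp
    ring
  have hb0 : bet D v k R =
      1 / (12 * a ^ 2) * (3 * ∑ j, ∑ g, D.S k j g * tls_L R ⟨k, g⟩ (v.e k j)) := by
    unfold bet
    rw [← ha, Finset.mul_sum, Finset.mul_sum, Finset.mul_sum]
    refine Finset.sum_congr rfl fun j _ => ?_
    change 1 / a * (1 / (4 * a) * ∑ g, D.S k j g * tls_L R ⟨k, g⟩ (v.e k j)) = _
    field_simp
    ring
  have hd : bet D v (k + 1) R - bet D v k R =
      1 / (12 * a ^ 2) * ∑ g, tls_L R ⟨k, g⟩ (tls_phi v k g) := by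
    rw [hb1, hb0, ← mul_sub]
    congr 1
    have e : ∀ g, tls_L R ⟨k, g⟩ (tls_phi v k g) =
        ∑ j, D.T k j g * tls_L R ⟨k, g⟩ (v.e (k + 1) j) -
          3 * ∑ j, D.S k j g * tls_L R ⟨k, g⟩ (v.e k j) := by
      intro g
      unfold tls_phi
      simp only [map_sub, map_sum, map_smul, smul_eq_mul]
    rw [Finset.sum_congr rfl fun g _ => e g, Finset.sum_sub_distrib, ← Finset.mul_sum,
      Finset.sum_comm]
    congr 2
    rw [Finset.sum_comm]
  have hs : |∑ g, tls_L R ⟨k, g⟩ (tls_phi v k g)| ≤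
      4 * a * (Real.exp (2 * kap * k) * (‖R‖ * (3000 * a ^ (3 / 4 : ℝ)))) := by
    refine (Finset.abs_sum_le_sum_abs _ _).trans ?_
    have h1 : ∀ g, |tls_L R ⟨k, g⟩ (tls_phi v k g)| ≤
        Real.exp (2 * kap * k) * (‖R‖ * (3000 * a ^ (3 / 4 : ℝ))) := by
      intro g
      refine (tls_bd R ⟨k, g⟩ _).trans ?_
      refine mul_le_mul_of_nonneg_left ?_ (Real.exp_pos _).le
      refine mul_le_mul_of_nonneg_left ?_ (ContinuousLinearMap.opNorm_nonneg R)
      rw [ha]
      exact tls_phi_norm v k g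
    refine (Finset.sum_le_sum fun g _ => h1 g).trans (le_of_eq ?_)
    rw [Finset.sum_const, Finset.card_univ, Fintype.card_fin, nsmul_eq_mul]
    push_cast
    rw [← ha]
  have hexp : a ^ (3 / 4 : ℝ) = a * Real.exp (-(Real.log 3 / 4 * k)) := by
    rw [ha, tls_mm, ← Real.exp_mul, ← Real.exp_add]
    congr 1
    ring
  have hk : Real.exp (2 * kap * k) * Real.exp (-(Real.log 3 / 4 * k)) =
      Real.exp (-(Real.log 3 / 8 * k)) := by
    rw [← Real.exp_add]
    congr 1
    unfold kap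
    ring
  rw [hd, abs_mul, abs_of_pos (by positivity : 0 < 1 / (12 * a ^ 2))]
  refine (mul_le_mul_of_nonneg_left hs (by positivity)).trans (le_of_eq ?_)
  rw [hexp, ← hk]
  field_simp
  ring

end Pool.Agent.Helper7.WD
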